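import Pool.Agent.Helper32.EV.K
import Pool.Agent.Helper32.EV.L

/-!
# Value distribution of eigenfunctions: sharp lower bounds for the even moments (MP_a52643_an)

`X` is a surface of finite area `vol`, covered up to a null set by countably many charts of
isothermal coordinates.
-/

set_option autoImplicit false
open MeasureTheory Filter Topology Complex
open scoped ContDiff ENNReal

namespace Pool.Agent.Results.MP_a52643_an.EvenMoments

noncomputable section

/-- the Laplacian `∂x² + ∂y²` -/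
def lapl (f : ℂ → ℝ) (z : ℂ) : ℝ :=
  fderiv ℝ (fun w => fderiv ℝ f w 1) z 1 + fderiv ℝ (fun w => fderiv ℝ f w I) z I

/-- A chart of isothermal coordinates on a surface `X` with area measure `vol`: `c` is a
homeomorphism of the open set `c.source ⊆ X` onto the open set `c.target ⊆ ℂ`, the metric is
`ρ |dz|²` with `ρ` smooth and positive, and `vol` is `ρ dx dy`. -/
structure Chart (X : Type*) [TopologicalSpace X] [MeasurableSpace X] (vol : Measure X) where
  c : OpenPartialHomeomorph X ℂ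
  ρ : ℂ → ℝ
  smooth : ContDiffOn ℝ ∞ ρ c.target
  pos : ∀ z ∈ c.target, 0 < ρ z
  area : ∀ A : Set X, MeasurableSet A → A ⊆ c.source →
    vol A = ∫⁻ z in c '' A, ENNReal.ofReal (ρ z)

variable {X : Type*} [TopologicalSpace X] [MeasurableSpace X] {vol : Measure X}

/-- `u` is a measurable function on `X` which is smooth in the charts and satisfies
`Δ u = - lam u` there, where `Δ = ρ⁻¹ (∂x² + ∂y²)` -/
def IsEigenfunction (A : ℕ → Chart X vol) (lam : ℝ) (u : X → ℝ) : Prop :=
  Measurable u ∧ ∀ i, ContDiffOn ℝ ∞ (u ∘ (A i).c.symm) (A i).c.target ∧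
    ∀ z ∈ (A i).c.target,
      lapl (u ∘ (A i).c.symm) z / (A i).ρ z = - lam * u ((A i).c.symm z)

/-- `X` has finite area and is covered by the charts `A i` up to a null set, and the `u n` are
eigenfunctions, bounded in `L²`, with eigenvalues tending to infinity -/
structure EigenSequence (A : ℕ → Chart X vol) (lam : ℕ → ℝ) (u : ℕ → X → ℝ) : Prop where
  finite : vol Set.univ < ⊤
  cover : vol (⋃ i, (A i).c.source)ᶜ = 0
  tendsto : Tendsto lam atTop atTop
  eigen : ∀ n, IsEigenfunction A (lam n) (u n)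
  bounded : ∃ M : ℝ, ∀ n, MemLp (u n) 2 vol ∧ ∫ x, u n x ^ 2 ∂vol ≤ M

open Pool.Agent.N252.TV in
lemma conv (A : ℕ → Chart X vol) {lam : ℕ → ℝ} {u : ℕ → X → ℝ}
    (H : EigenSequence A lam u) : ∃ A' : ℕ → IsoChart X vol,
      vol (⋃ i, (A' i).c.source)ᶜ = 0 ∧ ∀ n, IsEigen A' (lam n) (u n) := by
  obtain ⟨A', hA'⟩ : ∃ A' : ℕ → IsoChart X vol, ∀ i, (A' i).c = (A i).c ∧ (A' i).ρ = (A i).ρ :=
    ⟨fun i => ⟨(A i).c, (A i).ρ, (A i).smooth, (A i).pos, (A i).area⟩, fun i => ⟨rfl, rfl⟩⟩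
  refine ⟨A', ?_, fun n => ⟨(H.eigen n).1, fun i => ?_, fun i z hz => ?_⟩⟩
  · have : ∀ i, (A' i).c.source = (A i).c.source := fun i => by rw [(hA' i).1]
    simp only [this]; exact H.cover
  · rw [(hA' i).1]; exact ((H.eigen n).2 i).1
  · rw [(hA' i).1] at hz ⊢
    rw [(hA' i).2]
    have h1 := ((H.eigen n).2 i).2 z hz
    have h2 := (A i).pos z hz
    rw [div_eq_iff h2.ne'] at h1
    have e : Pool.Agent.N252.TV.lapl (u n ∘ (A i).c.symm) z = lapl (u n ∘ (A i).c.symm) z := rfl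
    rw [e, h1]
    show - lam n * u n ((A i).c.symm z) * (A i).ρ z +
      lam n * ((A i).ρ z * u n ((A i).c.symm z)) = 0
    ring

open Pool.Agent.Helper32.EV in
lemma ineq [T2Space X] [BorelSpace X] (A : ℕ → Chart X vol) {lam : ℕ → ℝ} {u : ℕ → X → ℝ}
    (H : EigenSequence A lam u) (k : ℕ) (hk : 2 ≤ k) (U : Set X) (hU : IsOpen U) (ε : ℝ)
    (hε : 0 < ε) : ∀ᶠ n in atTop,
      ENNReal.ofReal ((Nat.choose (2 * k) k : ℝ) / 2 ^ k * (⨍ x in U, u n x ^ 2 ∂vol) ^ k) ≤
        (⨍⁻ x in U, ENNReal.ofReal (u n x ^ (2 * k)) ∂vol) + ENNReal.ofReal ε := by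
  have fm : IsFiniteMeasure vol := ⟨H.finite⟩
  by_cases h0 : vol U = 0
  · have e : ∀ n, ⨍ x in U, u n x ^ 2 ∂vol = 0 := fun n => by
      rw [Measure.restrict_eq_zero.2 h0, average_zero_measure]
    refine Eventually.of_forall fun n => ?_
    rw [e, zero_pow (by omega), mul_zero, ENNReal.ofReal_zero]
    exact zero_le
  obtain ⟨A', hA, hu⟩ := conv A H
  obtain ⟨M, hM⟩ := H.bounded
  have hV : 0 < vol.real U := ENNReal.toReal_pos h0 (measure_ne_top _ _)
  obtain ⟨j, rfl⟩ : ∃ j, k = j + 2 := ⟨k - 2, by omega⟩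
  have hUA : vol (U \ ⋃ i, (A' i).c.source) = 0 :=
    measure_mono_null (fun x hx => hx.2) hA
  have key := open_main hU hUA hV H.tendsto hu hM j (mul_pos hε hV)
  filter_upwards [key] with n hn
  have F0 : ∀ x, 0 ≤ u n x ^ (2 * (j + 2)) := fun x => by rw [pow_mul]; positivity
  have mF : Measurable fun x => u n x ^ (2 * (j + 2)) := ((H.eigen n).1).pow_const _
  by_cases hi : IntegrableOn (fun x => u n x ^ (2 * (j + 2))) U vol
  · have h1 := hn hi
    have eU : vol U = ENNReal.ofReal (vol.real U) :=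
      (ENNReal.ofReal_toReal (measure_ne_top vol U)).symm
    rw [setLAverage_eq, ← ofReal_integral_eq_lintegral_ofReal hi (ae_of_all _ F0), eU,
      ← ENNReal.ofReal_div_of_pos hV, ← ENNReal.ofReal_add (by
        have : 0 ≤ ∫ x in U, u n x ^ (2 * (j + 2)) ∂vol := integral_nonneg F0
        positivity) hε.le]
    refine ENNReal.ofReal_le_ofReal ?_
    rw [← Nat.centralBinom_eq_two_mul_choose, setAverage_eq, smul_eq_mul, inv_mul_eq_div]
    rw [div_add' _ _ _ hV.ne', le_div_iff₀ hV]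
    linarith
  · have h1 : ∫⁻ x in U, ENNReal.ofReal (u n x ^ (2 * (j + 2))) ∂vol = ⊤ := by
      by_contra h
      exact hi ((lintegral_ofReal_ne_top_iff_integrable mF.aestronglyMeasurable
        (ae_of_all _ F0)).1 h)
    rw [setLAverage_eq, h1, ENNReal.top_div_of_ne_top (measure_ne_top _ _), top_add]
    exact le_top

open Pool.Agent.Helper61A.PW in
/-- the chart of the unit square -/
def sq : Chart ℂ ((volume : Measure ℂ).restrict Q) where
  c := OpenPartialHomeomorph.ofSet Q Q_open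
  ρ := fun _ => 1
  smooth := contDiffOn_const
  pos := fun _ _ => one_pos
  area := by
    intro S hS hSQ
    have hSQ' : S ⊆ Q := hSQ
    have e : (OpenPartialHomeomorph.ofSet Q Q_open) '' S = S := Set.image_id S
    rw [e, Measure.restrict_apply hS, Set.inter_eq_self_of_subset_left hSQ']
    simp

open Pool.Agent.Helper61A.PW Pool.Agent.Helper32.EV in
lemma equality : ∃ (vol : Measure ℂ) (A : ℕ → Chart ℂ vol) (lam : ℕ → ℝ) (u : ℕ → ℂ → ℝ),
    EigenSequence A lam u ∧ ∀ n, 0 < ⨍ x, u n x ^ 2 ∂vol ∧ ∀ k : ℕ,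
      ⨍ x, u n x ^ (2 * k) ∂vol =
        (Nat.choose (2 * k) k : ℝ) / 2 ^ k * (⨍ x, u n x ^ 2 ∂vol) ^ k := by
  have hp := Real.pi_pos
  refine ⟨(volume : Measure ℂ).restrict Q, fun _ => sq, fun n => (((n : ℝ) + 1) * Real.pi) ^ 2,
    fun n z => Real.cos (((n : ℝ) + 1) * Real.pi * z.re), ⟨?_, ?_, ?_, fun n => ⟨?_, fun i => ?_⟩,
      1, fun n => ⟨?_, ?_⟩⟩, fun n => ?_⟩
  · rw [Measure.restrict_apply_univ, vol_Q]; exact ENNReal.one_lt_top
  · have e : (⋃ _ : ℕ, sq.c.source) = Q := Set.iUnion_const _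
    rw [e, Measure.restrict_apply Q_open.measurableSet.compl]
    simp
  · have h1 : Tendsto (fun n : ℕ => ((n : ℝ) + 1) * Real.pi) atTop atTop :=
      (tendsto_atTop_add_const_right _ _ tendsto_natCast_atTop_atTop).atTop_mul_const hp
    exact (tendsto_pow_atTop two_ne_zero).comp h1
  · exact (cos_sm _).continuous.measurable
  · refine ⟨(cos_sm _).contDiffOn, fun z _ => ?_⟩
    have e := cos_lap (((n : ℝ) + 1) * Real.pi) z
    show (fderiv ℝ (fun w => fderiv ℝ (fun z : ℂ => Real.cos (((n : ℝ) + 1) * Real.pi * z.re))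
        w 1) z 1 + fderiv ℝ (fun w => fderiv ℝ
        (fun z : ℂ => Real.cos (((n : ℝ) + 1) * Real.pi * z.re)) w I) z I) / 1 = _
    rw [e, div_one]
    rfl
  · have : IsFiniteMeasure ((volume : Measure ℂ).restrict Q) :=
      ⟨by rw [Measure.restrict_apply_univ, vol_Q]; exact ENNReal.one_lt_top⟩
    exact MemLp.of_bound (cos_sm _).continuous.aestronglyMeasurable 1
      (ae_of_all _ fun z => Real.abs_cos_le_one _)
  · have := int_Q (fun x => Real.cos (((n : ℝ) + 1) * Real.pi * x) ^ 2)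
    rw [int_cos_sq'] at this
    rw [this]; norm_num
  · have pm : IsProbabilityMeasure ((volume : Measure ℂ).restrict Q) :=
      ⟨by rw [Measure.restrict_apply_univ, vol_Q]⟩
    have h1 := int_Q (fun x => Real.cos (((n : ℝ) + 1) * Real.pi * x) ^ 2)
    rw [int_cos_sq'] at h1
    rw [average_eq_integral, h1]
    refine ⟨by norm_num, fun k => ?_⟩
    have h2 := int_Q (fun x => Real.cos (((n : ℝ) + 1) * Real.pi * x) ^ (2 * k))
    rw [int_cos_pow] at h2
    rw [average_eq_integral, h2, ← Nat.centralBinom_eq_two_mul_choose]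
    have : (4 : ℝ) ^ k = 2 ^ k * 2 ^ k := by rw [← mul_pow]; norm_num
    rw [this, one_div, inv_pow]
    field_simp

/-- **Sharp lower bounds for the even moments.** Let `u n` be eigenfunctions, bounded in `L²`, with
eigenvalues tending to infinity, on a surface of finite area. Then, for every `k ≥ 2` and every
open set `U`, the average of `(u n)²ᵏ` over `U` is at least
`2⁻ᵏ binom(2k, k) (⨍_U (u n)²)ᵏ - o(1)`. All these constants are sharp: equality without error
term holds, for all `k` at once, for a sequence on the unit square. (`2⁻ᵏ binom(2k, k) (σ²)ᵏ` is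
`1 / k!` times the moment of order `2k` of the normal law `N(0, σ²)`.) -/
theorem result.{v} :
    (∀ (X : Type v) [TopologicalSpace X] [T2Space X] [MeasurableSpace X] [BorelSpace X]
      (vol : Measure X) (A : ℕ → Chart X vol) (lam : ℕ → ℝ) (u : ℕ → X → ℝ),
      EigenSequence A lam u → ∀ k : ℕ, 2 ≤ k → ∀ U : Set X, IsOpen U → ∀ ε : ℝ, 0 < ε →
        ∀ᶠ n in atTop,
          ENNReal.ofReal ((Nat.choose (2 * k) k : ℝ) / 2 ^ k * (⨍ x in U, u n x ^ 2 ∂vol) ^ k) ≤
            (⨍⁻ x in U, ENNReal.ofReal (u n x ^ (2 * k)) ∂vol) + ENNReal.ofReal ε) ∧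
    ∃ (vol : Measure ℂ) (A : ℕ → Chart ℂ vol) (lam : ℕ → ℝ) (u : ℕ → ℂ → ℝ),
      EigenSequence A lam u ∧ ∀ n, 0 < ⨍ x, u n x ^ 2 ∂vol ∧ ∀ k : ℕ,
        ⨍ x, u n x ^ (2 * k) ∂vol =
          (Nat.choose (2 * k) k : ℝ) / 2 ^ k * (⨍ x, u n x ^ 2 ∂vol) ^ k :=
  ⟨fun _ _ _ _ _ _ A _ _ H k hk U hU => ineq A H k hk U hU, equality⟩

end

end Pool.Agent.Results.MP_a52643_an.EvenMoments
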