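import Pool.Agent.Helper39.BW.Core5

/-!
# Extreme values of quantum ergodic eigenfunctions (MP_a52643_an)

A Riemannian surface in isothermal coordinates: an open set `Ω ⊆ ℂ` with the metric `ρ |dz|²`,
area measure `ρ dx dy`. `dx f z`, `dy f z` are the partial derivatives `fderiv ℝ f z 1`,
`fderiv ℝ f z I`, and `lap f = dx (dx f) + dy (dy f)`; `TF Ω φ` says that `φ : ℂ → ℝ` is smooth
with compact support contained in `Ω`.

In the metric rescaled by `λ` the operator `D = (λ ρ)^{-1/2} (∂x - i ∂y)` is the derivative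
`∂_1 - i ∂_2` in the conformal orthonormal frame; at a unit momentum of direction `α` its symbol is
`sym α = i exp(-iα)`. The hypothesis `hsc` says that `u n` has the semiclassical measure
`m(z) ν_z(dα) dvol(z)` on the unit cosphere bundle over `Ω`. Quantum ergodicity (with the
normalisation of `u²` to mean one) is the case `m = 1`, `ν_z` uniform. The hypothesis `hpar` says
that `ν_z` has no atoms modulo `π`.

The theorem: near a point `z₀` the values of `u n` are not confined to an interval `[-α, β]` with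
`α β < 4 m(z₀)`. Either `u n` is larger than a given bound `M` somewhere in the given neighbourhood
`U` of `z₀`, or the part of `U` where its value is outside `[-α, β]` has area at least `κ > 0`,
with `κ` independent of `n`. With `M = max α β`: for all large `n` the function `u n` takes on `U` a
value outside `[-α, β]`; in particular `liminf (sup_U |u n|) ≥ 2 √m(z₀)`.

Proof idea. (1) If `-α ≤ u ≤ β` then, in the limit of high energy,
`|∇u|² / λ ≤ (u + α)(β - u)`: this is the inequality of Bernstein and Szegő for functions with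
spectrum in the unit disc. It is proved here in the mean: for every unit vector `(w₀, w)` of
`ℝ × ℝ²` the sampling formula (the Fourier series of `exp(-iαs)(cos α + i s sin α)` on `[-1, 1]`)
gives finitely many nodes, and Plancherel's theorem for the localised function, which nearly solves
the Helmholtz equation with constant coefficients in a small ball, controls the error in `L²`.
(2) Multiply by `u²` and integrate: `∫ φ u² |∇u|² / λ = (1/3) ∫ φ u⁴ + o(1)`, the third moment tends
to zero and the fourth moment is at least `3 ∫ φ m²`, so `4 ∫ φ m² ≤ α β ∫ φ m`.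
-/

set_option autoImplicit false
open MeasureTheory Filter Topology Complex ProbabilityTheory
open scoped ContDiff ENNReal

namespace Pool.Agent.Results.MP_a52643_an.ExtremeValues

open Pool.Agent.W745.RW

/-- the normalised frame derivative `(λ ρ)^{-1/2} (∂x - i ∂y)` -/
noncomputable def D (ρ : ℂ → ℝ) (lam : ℝ) (f : ℂ → ℂ) (z : ℂ) : ℂ :=
  ((1 / √(lam * ρ z) : ℝ) : ℂ) * (dx f z - I * dy f z)

/-- the symbol of `D` at a unit momentum of direction `α` -/
noncomputable def sym (α : ℝ) : ℂ := I * Complex.exp (-(α : ℂ) * I)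

/-- the probability that two independent directions of law `ν` are parallel (equal or opposite) -/
noncomputable def parallel (ν : Measure ℝ) : ℝ :=
  (ν.prod ν).real {p | Real.sin (p.1 - p.2) = 0}

/-- **Result.** Let `u n` be real solutions of `Δu + λ_n u = 0` for the metric `ρ |dz|²` on `Ω`
(that is `lap u + λ_n ρ u = 0`), `λ_n → ∞`, with semiclassical measure `m(z) ν_z dvol(z)`, `m`
continuous and `ν_z` without atoms modulo `π`. Let `U ⊆ Ω` be an open neighbourhood of `z₀`, let
`α, β ≥ 0` with `α β < 4 m(z₀)`, and let `M` be real. There is `κ > 0` such that for all large `n`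
either `|u n| > M` somewhere in `U`, or the set of the points of `U` at which `u n < -α` or
`u n > β` has area at least `κ`. -/
theorem result (Ω : Set ℂ) (hΩ : IsOpen Ω) (ρ : ℂ → ℝ) (hρ : ContDiffOn ℝ ∞ ρ Ω)
    (hρ0 : ∀ z ∈ Ω, 0 < ρ z) (lam : ℕ → ℝ) (hpos : ∀ n, 0 < lam n)
    (hlam : Tendsto lam atTop atTop) (u : ℕ → ℂ → ℝ) (hu : ∀ n, ContDiffOn ℝ ∞ (u n) Ω)
    (heq : ∀ n, ∀ z ∈ Ω, lap (u n) z + lam n * (ρ z * u n z) = 0)
    (m : ℂ → ℝ) (hm : ContinuousOn m Ω) (ν : Kernel ℂ ℝ) [IsMarkovKernel ν]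
    (hsc : ∀ φ, TF Ω φ → ∀ k : ℕ, Tendsto (fun n => ∫ z, ((φ z * ρ z : ℝ) : ℂ) *
      ((u n z : ℂ) * (D ρ (lam n))^[k] (fun w => (u n w : ℂ)) z)) atTop
      (𝓝 (∫ z, ((φ z * ρ z : ℝ) : ℂ) * ((m z : ℂ) * ∫ α, sym α ^ k ∂(ν z)))))
    (hpar : ∀ᵐ z ∂(volume.restrict Ω), parallel (ν z) = 0)
    (z₀ : ℂ) (U : Set ℂ) (hU : IsOpen U) (hzU : z₀ ∈ U) (hUΩ : U ⊆ Ω)
    (α β M : ℝ) (hα : 0 ≤ α) (hβ : 0 ≤ β) (hαβ : α * β < 4 * m z₀) :
    ∃ κ : ℝ, 0 < κ ∧ ∀ᶠ n in atTop, (∃ w ∈ U, M < |u n w|) ∨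
      ENNReal.ofReal κ ≤ volume {w | w ∈ U ∧ (u n w < -α ∨ β < u n w)} := by
  by_contra hcon
  have h1 : ∀ j : ℕ, ∃ᶠ n in atTop, (∀ w ∈ U, |u n w| ≤ M) ∧
      volume {w | w ∈ U ∧ (u n w < -α ∨ β < u n w)} < ENNReal.ofReal (1 / ((j : ℝ) + 1)) := by
    intro j
    by_contra hj
    rw [not_frequently] at hj
    refine hcon ⟨1 / ((j : ℝ) + 1), by positivity, hj.mono fun n hn => ?_⟩
    by_contra hc
    push Not at hc
    exact hn ⟨fun w hw => hc.1 w hw, hc.2⟩
  obtain ⟨ψ, hψ, hP⟩ := extraction_forall_of_frequently h1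
  have H := Pool.Agent.TH294.RG.rawG_met (M := Pool.Agent.TH294.RG.MM m
    Pool.Agent.TH294.RG.ea ν) hΩ hpos hlam hρ hρ0 hu heq hsc
  have hp : ∀ᵐ z ∂(volume.restrict Ω), Pool.Agent.TH294.RG.par Pool.Agent.TH294.RG.ea (ν z) = 0 := by
    filter_upwards [hpar] with z hz
    simp only [Pool.Agent.TH294.RG.par, Pool.Agent.TH294.RG.ea_par]
    exact hz
  have hV : IsOpen (U ∩ Metric.ball z₀ 1) := hU.inter Metric.isOpen_ball
  have hVΩ : U ∩ Metric.ball z₀ 1 ⊆ Ω := Set.inter_subset_left.trans hUΩ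
  have hVf : volume (U ∩ Metric.ball z₀ 1) ≠ ⊤ :=
    ne_top_of_le_ne_top (measure_ball_lt_top (μ := (volume : Measure ℂ))).ne
      (measure_mono Set.inter_subset_right)
  have H' := H.sub hVΩ hψ
  have hM0 : 0 ≤ M := (abs_nonneg _).trans ((hP 0).1 z₀ hzU)
  have hA : Tendsto (fun n => volume.real (Pool.Agent.Helper39.BW.Bad (U ∩ Metric.ball z₀ 1)
      (fun n => u (ψ n)) α β n)) atTop (𝓝 0) := by
    refine squeeze_zero (fun n => measureReal_nonneg) (fun n => ?_)
      tendsto_one_div_add_atTop_nhds_zero_nat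
    have hsub : Pool.Agent.Helper39.BW.Bad (U ∩ Metric.ball z₀ 1) (fun n => u (ψ n)) α β n ⊆
        {w | w ∈ U ∧ (u (ψ n) w < -α ∨ β < u (ψ n) w)} := fun w hw => ⟨hw.1.1, hw.2⟩
    have h2 : volume (Pool.Agent.Helper39.BW.Bad (U ∩ Metric.ball z₀ 1)
        (fun n => u (ψ n)) α β n) ≤ ENNReal.ofReal (1 / ((n : ℝ) + 1)) :=
      (measure_mono hsub).trans (hP n).2.le
    exact ENNReal.toReal_le_of_le_ofReal (by positivity) h2
  have hm0 : 0 < m z₀ := by have := mul_nonneg hα hβ; linarith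
  have key := Pool.Agent.Helper39.BW.core_all hV hVf H' (hm.mono hVΩ)
    (ae_restrict_of_ae_restrict_of_subset hVΩ hp) hM0 (fun n z hz => (hP n).1 z hz.1) hα hβ hA
    (z₀ := z₀) ⟨hzU, Metric.mem_ball_self one_pos⟩ hm0
  linarith

end Pool.Agent.Results.MP_a52643_an.ExtremeValues
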