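import Pool.Agent.Helper82.BW.Gau
import Pool.Agent.N252.TV.P

/-!
# Value distribution of eigenfunctions: the lengths of the level sets (MP_a52643_an)

`X` is a surface with charts of isothermal coordinates, `vol` its area measure. For an eigenfunction
`u` with eigenvalue `lam` the coarea formula (not used here) says that the integral of
`Φ * g(u) * √E`, where `E = |∇u|² / lam`, is `lam ^ (-1/2)` times the integral over `t` of `g(t)`
times the `Φ`-weighted length of the level set `{u = t}`.
-/

set_option autoImplicit false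
open MeasureTheory Filter Topology Complex
open scoped ContDiff ENNReal NNReal BoundedContinuousFunction

namespace Pool.Agent.Results.MP_a52643_an.LevelLengths

noncomputable section

/-- the Laplacian `∂x² + ∂y²` -/
def lapl (f : ℂ → ℝ) (z : ℂ) : ℝ :=
  fderiv ℝ (fun w => fderiv ℝ f w 1) z 1 + fderiv ℝ (fun w => fderiv ℝ f w I) z I

/-- the square of the Euclidean gradient -/
def gradSq (f : ℂ → ℝ) (z : ℂ) : ℝ := fderiv ℝ f z 1 ^ 2 + fderiv ℝ f z I ^ 2

/-- A chart of isothermal coordinates on a surface `X` with area measure `vol`: `c` is a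
homeomorphism of the open set `c.source ⊆ X` onto the open set `c.target ⊆ ℂ`, the metric is
`ρ |dz|²` with `ρ` smooth and positive, and `vol` is `ρ dx dy`. -/
structure Chart (X : Type*) [TopologicalSpace X] [MeasurableSpace X] (vol : Measure X) where
  c : OpenPartialHomeomorph X ℂ
  ρ : ℂ → ℝ
  smooth : ContDiffOn ℝ ∞ ρ c.target
  pos : ∀ z ∈ c.target, 0 < ρ z
  area : ∀ A : Set X, MeasurableSet A → A ⊆ c.source →
    vol A = ∫⁻ z in c '' A, ENNReal.ofReal (ρ z)

variable {X : Type*} [TopologicalSpace X] [MeasurableSpace X] {vol : Measure X}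

/-- `u` is a measurable function on `X` which is smooth in the charts and satisfies
`Δ u = - lam u` there, where `Δ = ρ⁻¹ (∂x² + ∂y²)` -/
def IsEigenfunction (A : ℕ → Chart X vol) (lam : ℝ) (u : X → ℝ) : Prop :=
  Measurable u ∧ ∀ i, ContDiffOn ℝ ∞ (u ∘ (A i).c.symm) (A i).c.target ∧
    ∀ z ∈ (A i).c.target,
      lapl (u ∘ (A i).c.symm) z / (A i).ρ z = - lam * u ((A i).c.symm z)

/-- `E` is a measurable function on `X`, equal in the charts to `|∇u|² / lam`, where
`|∇u|² = ρ⁻¹ ((∂x u)² + (∂y u)²)` is the square of the gradient for the metric of the surface -/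
def IsEnergyDensity (A : ℕ → Chart X vol) (lam : ℝ) (u E : X → ℝ) : Prop :=
  Measurable E ∧ ∀ i, ∀ z ∈ (A i).c.target,
    E ((A i).c.symm z) = gradSq (u ∘ (A i).c.symm) z / (A i).ρ z / lam

/-- `Φ` is a finite sum of nonnegative functions, each smooth with compact support in a chart. On a
closed surface the function `Φ = 1` is such a sum, by a partition of unity. -/
def IsTestFunction (A : ℕ → Chart X vol) (Φ : X → ℝ) : Prop :=
  ∃ (s : Finset ℕ) (φ : ℕ → ℂ → ℝ), (∀ i ∈ s, ContDiff ℝ ∞ (φ i) ∧ HasCompactSupport (φ i) ∧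
    tsupport (φ i) ⊆ (A i).c.target ∧ ∀ z, 0 ≤ φ i z) ∧
    ∀ x, Φ x = ∑ i ∈ s, (A i).c.source.indicator (fun y => φ i ((A i).c y)) x

/-- the laws of `u n` under the measure `Φ vol` converge weakly to the measure `P` on the line,
times the integral of `Φ` -/
def LawsConverge (vol : Measure X) (Φ : X → ℝ) (u : ℕ → X → ℝ) (P : Measure ℝ) : Prop :=
  ∀ F : ℝ →ᵇ ℝ, Tendsto (fun n => ∫ x, Φ x * F (u n x) ∂vol) atTop
    (𝓝 ((∫ x, Φ x ∂vol) * ∫ t, F t ∂P))

/-- the density with respect to Lebesgue measure of the absolutely continuous part of `P` -/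
def density (P : Measure ℝ) (t : ℝ) : ℝ := (P.rnDeriv volume t).toReal

/-- the integral of `|s|` against `P(ds)` over all `s` such that `t` lies between `0` and `s`: over
`s ≥ t` for `t > 0` and over `s ≤ t` for `t < 0` -/
def tail (P : Measure ℝ) (t : ℝ) : ℝ := ∫ s in {s : ℝ | t ∈ Set.uIcc 0 s}, |s| ∂P

open Pool.Agent.N252.TV Pool.Agent.Helper82.BW in
/-- **The value distribution bounds the lengths of the level sets.** Let `u n` be eigenfunctions,
bounded in `L²`, with eigenvalues `lam n` tending to infinity, on a surface of finite area, let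
`E n = |∇ u n|² / lam n`, let `Φ` be a test function with positive integral, and let `δ > 0`.
(1) If the laws of `u n` under `Φ vol` converge weakly to a probability measure `P` on the line, then
for all large `n`, for every measurable `g : ℝ → [0, 1]`, the integral of `√(E n) g(u n)` against
`Φ vol` is at most `δ` plus the integral of `Φ` times the integral of
`g(t) √(density P t * tail P t) dt`.
(2) If they converge weakly to the normal law with mean `0` and variance `v > 0`, then for all large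
`n`, for every measurable `g : ℝ → [0, 1]`, the integral of `√(E n) g(u n)` against `Φ vol` is at
most `δ` plus the integral of `Φ` times `√v` times the integral of `g` against this normal law. -/
theorem result {X : Type*} [TopologicalSpace X] [MeasurableSpace X] [BorelSpace X]
    (vol : Measure X) [IsFiniteMeasure vol] (A : ℕ → Chart X vol) (lam : ℕ → ℝ)
    (hlam : Tendsto lam atTop atTop) (u E : ℕ → X → ℝ)
    (hu : ∀ n, IsEigenfunction A (lam n) (u n)) (hE : ∀ n, IsEnergyDensity A (lam n) (u n) (E n))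
    (M : ℝ) (hM : ∀ n, MemLp (u n) 2 vol ∧ ∫ x, u n x ^ 2 ∂vol ≤ M) (Φ : X → ℝ)
    (hΦ : IsTestFunction A Φ) (hΦ0 : 0 < ∫ x, Φ x ∂vol) (δ : ℝ) (hδ : 0 < δ) :
    (∀ P : Measure ℝ, IsProbabilityMeasure P → LawsConverge vol Φ u P →
      ∀ᶠ n in atTop, ∀ g : ℝ → ℝ, Measurable g → (∀ t, 0 ≤ g t ∧ g t ≤ 1) →
        ∫ x, Φ x * (√(E n x) * g (u n x)) ∂vol ≤
          (∫ x, Φ x ∂vol) * (∫ t, g t * √(density P t * tail P t)) + δ) ∧
    ∀ v : ℝ≥0, 0 < v → LawsConverge vol Φ u (ProbabilityTheory.gaussianReal 0 v) →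
      ∀ᶠ n in atTop, ∀ g : ℝ → ℝ, Measurable g → (∀ t, 0 ≤ g t ∧ g t ≤ 1) →
        ∫ x, Φ x * (√(E n x) * g (u n x)) ∂vol ≤
          (∫ x, Φ x ∂vol) * (√v * ∫ t, g t ∂(ProbabilityTheory.gaussianReal 0 v)) + δ := by
  obtain ⟨A', hA'⟩ : ∃ A' : ℕ → IsoChart X vol, ∀ i, (A' i).c = (A i).c ∧ (A' i).ρ = (A i).ρ :=
    ⟨fun i => ⟨(A i).c, (A i).ρ, (A i).smooth, (A i).pos, (A i).area⟩, fun i => ⟨rfl, rfl⟩⟩
  have hu2 : ∀ n, IsEigen A' (lam n) (u n) := by
    intro n
    refine ⟨(hu n).1, fun i => ?_, fun i z hz => ?_⟩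
    · rw [(hA' i).1]; exact ((hu n).2 i).1
    · rw [(hA' i).1] at hz ⊢
      rw [(hA' i).2]
      have h1 := ((hu n).2 i).2 z hz
      have h2 := (A i).pos z hz
      rw [div_eq_iff h2.ne'] at h1
      have e : Pool.Agent.N252.TV.lapl (u n ∘ (A i).c.symm) z = lapl (u n ∘ (A i).c.symm) z := rfl
      rw [e, h1]
      show - lam n * u n ((A i).c.symm z) * (A i).ρ z +
        lam n * ((A i).ρ z * u n ((A i).c.symm z)) = 0
      ring
  have hE2 : ∀ n, IsEn A' (lam n) (u n) (E n) := by
    intro n
    refine ⟨(hE n).1, fun i z hz => ?_⟩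
    rw [(hA' i).1] at hz ⊢
    rw [(hA' i).2, (hE n).2 i z hz, div_div, mul_comm (lam n)]
    rfl
  obtain ⟨s, φ, hφ, hs⟩ := hΦ
  have T : IsTe A' s φ Φ := by
    refine ⟨fun i hi => ⟨(hφ i hi).1, (hφ i hi).2.1, ?_⟩, fun i hi => (hφ i hi).2.2.2, fun x => ?_⟩
    · rw [(hA' i).1]; exact (hφ i hi).2.2.1
    · rw [hs x]
      refine Finset.sum_congr rfl fun i _ => ?_
      unfold pc
      rw [(hA' i).1]
  obtain ⟨N, M', C, h, hN, H⟩ := mk_pair T hΦ0 hlam hu2 hE2 hM
  obtain ⟨W, hW⟩ : ∃ W : ℝ, W = ∫ x, Φ x ∂vol := ⟨_, rfl⟩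
  have W0 : 0 < W := by rw [hW]; exact hΦ0
  have iΦ : Integrable Φ vol := by
    by_contra hc
    rw [integral_undef hc] at hΦ0
    exact lt_irrefl _ hΦ0
  have main : ∀ P : Measure ℝ, IsProbabilityMeasure P → LawsConverge vol Φ u P →
      ∀ᶠ n in atTop, ∀ g : ℝ → ℝ, Measurable g → (∀ t, 0 ≤ g t ∧ g t ≤ 1) →
        ∫ x, Φ x * (√(E n x) * g (u n x)) ∂vol ≤
          W * (∫ t, g t * √(dens P t * bz P t)) + δ := by
    intro P hP hPc
    have fν : IsFiniteMeasure (ENNReal.ofReal W • P) := Measure.smul_finite _ ENNReal.ofReal_ne_top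
    have hw : ∀ g : ℝ →ᵇ ℝ, Tendsto (fun n => ∫ x, g x ∂(muL vol Φ (u (n + N)))) atTop
        (𝓝 (∫ x, g x ∂(ENNReal.ofReal W • P))) := by
      intro g
      rw [integral_smul_measure, ENNReal.toReal_ofReal W0.le, smul_eq_mul, hW]
      have := (tendsto_add_atTop_iff_nat N).2 (hPc g)
      exact this.congr fun n => (den_int T.meas T.nnΦ (hu2 _).meas g.continuous.measurable).symm
    have l0 : ∀ n, 0 < lam (n + N) := fun n => (hN _ (Nat.le_add_left _ _)).1
    have iE : ∀ n, Integrable (fun x => Φ x * E (n + N) x) vol := fun n =>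
      (hN _ (Nat.le_add_left _ _)).2
    have key := len_lim H hw
      (fun n g => ∫ x, Φ x * (√(E (n + N) x) * g (u (n + N) x)) ∂vol) (by
        intro n g c ε ε0 mg mc g0 g1 c0 c1
        have cp : ∀ t, 0 < c t := fun t => lt_of_lt_of_le ε0 (c0 t)
        have nE := T.nnE (l0 n) (hE2 (n + N))
        have e1 : ∫ t, g t * c t ∂(enL vol Φ (E (n + N)) (u (n + N))) =
            ∫ x, Φ x * E (n + N) x * (g (u (n + N) x) * c (u (n + N) x)) ∂vol :=
          den_int (T.meas.mul (hE2 _).meas) nE (hu2 _).meas (mg.mul mc)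
        have e2 : ∫ t, g t / c t ∂(muL vol Φ (u (n + N))) =
            ∫ x, Φ x * (g (u (n + N) x) / c (u (n + N) x)) ∂vol :=
          den_int T.meas T.nnΦ (hu2 _).meas (mg.div mc)
        rw [e1, e2]
        have mu := (hu2 (n + N)).meas
        have i1 : Integrable (fun x => Φ x * E (n + N) x *
            (g (u (n + N) x) * c (u (n + N) x))) vol := by
          refine (iE n).mul_bdd (c := 1 / ε) ((mg.comp mu).mul (mc.comp mu)).aestronglyMeasurable
            (ae_of_all _ fun x => ?_)
          rw [Real.norm_eq_abs, abs_of_nonneg (mul_nonneg (g0 _) (cp _).le)]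
          calc g (u (n + N) x) * c (u (n + N) x) ≤ 1 * (1 / ε) :=
                mul_le_mul (g1 _) (c1 _) (cp _).le zero_le_one
            _ = 1 / ε := one_mul _
        have i2 : Integrable (fun x => Φ x * (g (u (n + N) x) / c (u (n + N) x))) vol := by
          refine iΦ.mul_bdd (c := 1 / ε) ((mg.comp mu).div (mc.comp mu)).aestronglyMeasurable
            (ae_of_all _ fun x => ?_)
          rw [Real.norm_eq_abs, abs_of_nonneg (div_nonneg (g0 _) (cp _).le)]
          exact div_le_div₀ zero_le_one (g1 _) ε0 (c0 _)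
        rw [← integral_add i1 i2, ← integral_div]
        refine integral_mono_of_nonneg (ae_of_all _ fun x => ?_) ((i1.add i2).div_const 2)
          (ae_of_all _ fun x => ?_)
        · exact mul_nonneg (T.nnΦ x) (mul_nonneg (Real.sqrt_nonneg _) (g0 _))
        · show Φ x * (√(E (n + N) x) * g (u (n + N) x)) ≤
            (Φ x * E (n + N) x * (g (u (n + N) x) * c (u (n + N) x)) +
              Φ x * (g (u (n + N) x) / c (u (n + N) x))) / 2
          obtain ⟨a, ha⟩ : ∃ a, a = g (u (n + N) x) := ⟨_, rfl⟩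
          obtain ⟨b, hb⟩ : ∃ b, b = c (u (n + N) x) := ⟨_, rfl⟩
          obtain ⟨e, he⟩ : ∃ e, e = E (n + N) x := ⟨_, rfl⟩
          obtain ⟨p, hp⟩ : ∃ p, p = Φ x := ⟨_, rfl⟩
          have a0 : 0 ≤ a := by rw [ha]; exact g0 _
          have b0 : 0 < b := by rw [hb]; exact cp _
          have p0 : 0 ≤ p := by rw [hp]; exact T.nnΦ x
          have pe : 0 ≤ p * e := by rw [hp, he]; exact nE x
          rw [← ha, ← hb, ← he, ← hp]
          rcases p0.eq_or_lt with h0 | h0
          · rw [← h0]; simp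
          · have ee : 0 ≤ e := nonneg_of_mul_nonneg_right pe h0
            have s1 : √e ^ 2 = e := Real.sq_sqrt ee
            have s2 : √e ≤ (e * b + 1 / b) / 2 := by
              have s3 : 0 ≤ b * (√e - 1 / b) ^ 2 := by positivity
              have s4 : b * (√e - 1 / b) ^ 2 = e * b + 1 / b - 2 * √e := by
                have : b * (√e - 1 / b) ^ 2 = √e ^ 2 * b + 1 / b - 2 * √e := by
                  field_simp
                  ring
                rw [this, s1]
              linarith
            calc p * (√e * a) = p * a * √e := by ring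
              _ ≤ p * a * ((e * b + 1 / b) / 2) :=
                mul_le_mul_of_nonneg_left s2 (mul_nonneg h0.le a0)
              _ = (p * e * (a * b) + p * (a / b)) / 2 := by ring) hδ
    rw [← Filter.map_add_atTop_eq_nat N, eventually_map]
    refine key.mono fun n hn g mg g01 => ?_
    have h1 := hn g mg (fun t => (g01 t).1) fun t => (g01 t).2
    rw [geo_smul P W0.le g] at h1
    exact h1
  rw [← hW]
  refine ⟨fun P hP hPc => main P hP hPc, fun v hv hPc => ?_⟩
  refine (main _ inferInstance hPc).mono fun n hn g mg g01 => ?_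
  have h1 := hn g mg g01
  rw [geo_gauss hv.ne' g] at h1
  exact h1

end

end Pool.Agent.Results.MP_a52643_an.LevelLengths
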